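import Pool.Agent.Y226.ZP.Emb

/-!
# Project HD of helper170, job HD-EMB: the embedding
-/

set_option autoImplicit false

open MvPolynomial Cardinal Pool.Agent.Y226

namespace Pool.Agent.Q166.HD

theorem emb_core (p : ℕ) [Fact p.Prime] (n : ℕ) (x : Fin n → ℂ) (S : Finset (Fin n))
    (hx : AlgebraicIndependent QA (fun i : S => x i)) :
    ∃ (C : Type) (_ : NormedField C) (_ : IsUltrametricDist C) (_ : CompleteSpace C)
    (_ : CharZero C) (_ : IsAlgClosed C) (φ : ℂ →+* C), ‖(p : C)‖ = (p : ℝ)⁻¹ ∧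
    ∀ i ∈ S, ‖φ (x i)‖ ≤ 1 := by
  have hpn : ‖(p : ℂ_[p])‖ = (p : ℝ)⁻¹ := by
    have h := PadicComplex.norm_extends' (p := p) (p : ℚ_[p])
    rw [Padic.norm_p] at h
    rw [← h]
    congr 1
    simp
  have hp1 : 1 < (p : ℝ) := by exact_mod_cast (Fact.out : p.Prime).one_lt
  have hp0 : (p : ℂ_[p]) ≠ 0 := by
    intro h
    rw [h, norm_zero] at hpn
    have : (0 : ℝ) < (p : ℝ)⁻¹ := by positivity
    linarith
  refine ⟨ℂ_[p], inferInstance, inferInstance, inferInstance, inferInstance, inferInstance, ?_⟩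
  let algC : Algebra QA ℂ_[p] :=
    (IsAlgClosed.lift (R := ℚ) (S := QA) (M := ℂ_[p])).toRingHom.toAlgebra
  have hinj : Function.Injective (algebraMap QA ℂ_[p]) := (algebraMap QA ℂ_[p]).injective
  have : FaithfulSMul QA ℂ_[p] := (faithfulSMul_iff_algebraMap_injective _ _).mpr hinj
  -- transcendence bases
  obtain ⟨T, hsT, hT⟩ := exists_isTranscendenceBasis_superset (R := QA) hx.coe_range
  obtain ⟨U, hU⟩ := exists_isTranscendenceBasis QA ℂ_[p]
  -- cardinalities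
  have hQA : #QA ≤ ℵ₀ := by
    have := Algebra.IsAlgebraic.cardinalMk_le_max ℚ QA
    simpa using this
  have hC : 𝔠 ≤ #ℂ_[p] := continuum_le_cardinal_of_nontriviallyNormedField ℂ_[p]
  have hU1 : #ℂ_[p] ≤ max (max #QA #U) ℵ₀ :=
    IsAlgClosed.cardinal_le_max_transcendence_basis' _ hU
  have hU2 : 𝔠 ≤ #U := by
    by_contra h
    push Not at h
    have h1 : max (max #QA #U) ℵ₀ < 𝔠 :=
      max_lt (max_lt (lt_of_le_of_lt hQA aleph0_lt_continuum) h) aleph0_lt_continuum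
    exact absurd (le_trans hC hU1) (not_le.mpr h1)
  have hT1 : #T ≤ 𝔠 := by
    have h1 : #T ≤ #ℂ := mk_set_le T
    rwa [Cardinal.mk_complex] at h1
  obtain ⟨f⟩ : Nonempty (T ↪ U) := (le_trans hT1 hU2)
  -- scaling
  have hk : ∀ u : ℂ_[p], ∃ k : ℕ, ‖(p : ℂ_[p]) ^ k * u‖ ≤ 1 := by
    intro u
    obtain ⟨k, hk⟩ := pow_unbounded_of_one_lt ‖u‖ hp1
    refine ⟨k, ?_⟩
    rw [norm_mul, norm_pow, hpn, inv_pow, inv_mul_le_iff₀ (by positivity), mul_one]
    exact hk.le
  choose k hk using hk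
  set w : T → ℂ_[p] := fun t => (p : ℂ_[p]) ^ k (f t : ℂ_[p]) * (f t : ℂ_[p]) with hw
  have hwi : AlgebraicIndependent QA w := by
    have h1 : AlgebraicIndependent QA (fun t : T => ((f t : U) : ℂ_[p])) :=
      hU.1.comp f f.injective
    have h2 := h1.polynomial_aeval_of_transcendental
      (f := fun t => Polynomial.C ((p : QA) ^ k (f t : ℂ_[p])) * Polynomial.X) (fun t => by
        have hne : ((p : QA) ^ k (f t : ℂ_[p])) ≠ 0 := by
          refine pow_ne_zero _ ?_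
          exact_mod_cast (Fact.out : p.Prime).ne_zero
        refine Polynomial.transcendental _ ?_ ?_
        · rw [Polynomial.natDegree_C_mul_X _ hne]
          norm_num
        · rw [Polynomial.leadingCoeff_C_mul_X]
          exact mem_nonZeroDivisors_of_ne_zero hne)
    convert h2 using 1
    funext t
    rw [hw]
    simp
  -- the homomorphism
  let g : Algebra.adjoin QA (Set.range ((↑) : T → ℂ)) →ₐ[QA] ℂ_[p] :=
    (aeval w).comp (hT.1.aevalEquiv.symm : _ →ₐ[QA] MvPolynomial T QA)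
  have hg : Function.Injective g :=
    (algebraicIndependent_iff_injective_aeval.mp hwi).comp hT.1.aevalEquiv.symm.injective
  let algA : Algebra (Algebra.adjoin QA (Set.range ((↑) : T → ℂ))) ℂ_[p] := g.toRingHom.toAlgebra
  have := hT.isAlgebraic
  have : Module.IsTorsionFree (Algebra.adjoin QA (Set.range ((↑) : T → ℂ))) ℂ_[p] :=
    (Module.isTorsionFree_iff_faithfulSMul).mpr
      ((faithfulSMul_iff_algebraMap_injective _ _).mpr hg)
  let φ : ℂ →ₐ[Algebra.adjoin QA (Set.range ((↑) : T → ℂ))] ℂ_[p] := IsAlgClosed.lift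
  refine ⟨φ.toRingHom, hpn, fun i hi => ?_⟩
  have hmem : x i ∈ T := hsT ⟨⟨i, hi⟩, rfl⟩
  have h1 : φ (x i) = w ⟨x i, hmem⟩ := by
    have hm : x i ∈ Algebra.adjoin QA (Set.range ((↑) : T → ℂ)) :=
      Algebra.subset_adjoin ⟨⟨x i, hmem⟩, rfl⟩
    have e1 : φ (x i) = g ⟨x i, hm⟩ :=
      φ.commutes (⟨x i, hm⟩ : Algebra.adjoin QA (Set.range ((↑) : T → ℂ)))
    have e2 : (⟨x i, hm⟩ : Algebra.adjoin QA (Set.range ((↑) : T → ℂ))) =
        hT.1.aevalEquiv (X ⟨x i, hmem⟩) := by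
      apply Subtype.ext
      have := hT.1.algebraMap_aevalEquiv (X ⟨x i, hmem⟩)
      rw [aeval_X] at this
      exact this.symm
    rw [e1, e2]
    change aeval w (hT.1.aevalEquiv.symm (hT.1.aevalEquiv (X ⟨x i, hmem⟩))) = _
    rw [AlgEquiv.symm_apply_apply, aeval_X]
  have h2 : φ.toRingHom (x i) = φ (x i) := rfl
  rw [h2, h1]
  exact hk _

end Pool.Agent.Q166.HD
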