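import Pool.Agent.Q170.HD.St
import Pool.Agent.Q166.HD.EmbCore

/-!
# Project HD of helper170, job HD-EMB
-/

set_option autoImplicit false

namespace Pool.Agent.Q166.HD

theorem emb : Pool.Agent.Q170.HD.S_EMB := fun p _ n x S hx => emb_core p n x S hx

end Pool.Agent.Q166.HD
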